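import Pool.Agent.Helper37.GP.Defs2

/-!
# GP-12 : affine change of variable `t = a + k s`
-/

open Polynomial

namespace Pool.Agent.Helper37.GP

namespace Subst12

/-! ### the series `gx` -/

theorem gx_mul {k : ℕ} (hk : 1 ≤ k) (a : ℕ) :
    gx k a * (PowerSeries.C (k : ℚ) + PowerSeries.C (a : ℚ) * PowerSeries.X) =
      PowerSeries.X := by
  have h : PowerSeries.constantCoeff (PowerSeries.C (k : ℚ) +
      PowerSeries.C (a : ℚ) * (PowerSeries.X : PowerSeries ℚ)) ≠ 0 := by
    simp
    omega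
  rw [gx, mul_assoc, PowerSeries.inv_mul_cancel _ h, mul_one]

theorem constantCoeff_gx (k a : ℕ) : PowerSeries.constantCoeff (gx k a) = 0 := by
  simp [gx]

theorem hasSubst_gx (k a : ℕ) : PowerSeries.HasSubst (gx k a) :=
  PowerSeries.HasSubst.of_constantCoeff_zero' (constantCoeff_gx k a)

/-- coefficients of the powers of `gx` -/
noncomputable def cc (k a m n : ℕ) : ℚ := PowerSeries.coeff n (gx k a ^ m)

theorem cc_rec {k : ℕ} (hk : 1 ≤ k) (a m n : ℕ) :
    (k : ℚ) * cc k a (m + 1) (n + 1) = cc k a m n - (a : ℚ) * cc k a (m + 1) n := by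
  have h : gx k a ^ (m + 1) * (PowerSeries.C (k : ℚ) +
      PowerSeries.C (a : ℚ) * PowerSeries.X) = gx k a ^ m * PowerSeries.X := by
    rw [pow_succ, mul_assoc, gx_mul hk]
  have h2 := congrArg (PowerSeries.coeff (n + 1)) h
  rw [PowerSeries.coeff_succ_mul_X, mul_add, map_add, ← mul_assoc,
    PowerSeries.coeff_succ_mul_X, PowerSeries.coeff_mul_C, PowerSeries.coeff_mul_C] at h2
  unfold cc
  linear_combination h2

theorem cc_zero (k a n : ℕ) : cc k a 0 n = if n = 0 then 1 else 0 := by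
  unfold cc
  rw [pow_zero, PowerSeries.coeff_one]

theorem cc_succ_zero (k a m : ℕ) : cc k a (m + 1) 0 = 0 := by
  unfold cc
  rw [PowerSeries.coeff_zero_eq_constantCoeff, map_pow, constantCoeff_gx, zero_pow (by omega)]

theorem cc_of_lt {k : ℕ} (hk : 1 ≤ k) (a : ℕ) : ∀ {n m : ℕ}, n < m → cc k a m n = 0 := by
  intro n
  induction n with
  | zero =>
    intro m hm
    obtain ⟨m, rfl⟩ : ∃ m', m = m' + 1 := ⟨m - 1, by omega⟩
    exact cc_succ_zero k a m
  | succ n ih =>
    intro m hm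
    obtain ⟨m, rfl⟩ : ∃ m', m = m' + 1 := ⟨m - 1, by omega⟩
    have h := cc_rec hk a m n
    rw [ih (show n < m by omega), ih (show n < m + 1 by omega)] at h
    have hk' : (k : ℚ) ≠ 0 := by
      have : (k : ℚ) ≥ 1 := by exact_mod_cast hk
      linarith
    have h' : (k : ℚ) * cc k a (m + 1) (n + 1) = 0 := by rw [h]; ring
    exact (mul_eq_zero.1 h').resolve_left hk'

theorem cc_bound {k : ℕ} (hk : 1 ≤ k) (a : ℕ) : ∀ n m : ℕ,
    |cc k a m n| ≤ ((a : ℚ) + 1) ^ n := by
  intro n
  induction n with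
  | zero =>
    intro m
    cases m with
    | zero => simp [cc_zero]
    | succ m => simp [cc_succ_zero]
  | succ n ih =>
    intro m
    cases m with
    | zero =>
      rw [cc_zero, if_neg (by omega), abs_zero]
      positivity
    | succ m =>
      have hk1 : (1 : ℚ) ≤ k := by exact_mod_cast hk
      have h := cc_rec hk a m n
      have h1 : |cc k a (m + 1) (n + 1)| ≤ (k : ℚ) * |cc k a (m + 1) (n + 1)| := by
        nlinarith [abs_nonneg (cc k a (m + 1) (n + 1))]
      have h2 : (k : ℚ) * |cc k a (m + 1) (n + 1)| = |(k : ℚ) * cc k a (m + 1) (n + 1)| := by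
        rw [abs_mul, Nat.abs_cast]
      rw [h2, h] at h1
      calc |cc k a (m + 1) (n + 1)| ≤ |cc k a m n - (a : ℚ) * cc k a (m + 1) n| := h1
        _ ≤ |cc k a m n| + |(a : ℚ) * cc k a (m + 1) n| := abs_sub _ _
        _ = |cc k a m n| + (a : ℚ) * |cc k a (m + 1) n| := by rw [abs_mul, Nat.abs_cast]
        _ ≤ ((a : ℚ) + 1) ^ n + (a : ℚ) * ((a : ℚ) + 1) ^ n := by
            gcongr
            · exact ih m
            · exact ih (m + 1)
        _ = ((a : ℚ) + 1) ^ (n + 1) := by ring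

theorem cc_int {k : ℕ} (hk : 1 ≤ k) (a : ℕ) : ∀ n m : ℕ,
    ∃ z : ℤ, (k : ℚ) ^ n * cc k a m n = z := by
  intro n
  induction n with
  | zero =>
    intro m
    cases m with
    | zero => exact ⟨1, by simp [cc_zero]⟩
    | succ m => exact ⟨0, by simp [cc_succ_zero]⟩
  | succ n ih =>
    intro m
    cases m with
    | zero => exact ⟨0, by simp [cc_zero]⟩
    | succ m =>
      obtain ⟨z1, h1⟩ := ih m
      obtain ⟨z2, h2⟩ := ih (m + 1)
      refine ⟨z1 - a * z2, ?_⟩
      rw [pow_succ, mul_assoc, cc_rec hk, mul_sub, h1]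
      push_cast
      rw [← h2]
      ring

theorem coeff_subst_gx {k : ℕ} (hk : 1 ≤ k) (a : ℕ) (f : PowerSeries ℚ) (n : ℕ) :
    PowerSeries.coeff n (f.subst (gx k a)) =
      ∑ m ∈ Finset.range (n + 1), PowerSeries.coeff m f * cc k a m n := by
  rw [PowerSeries.coeff_subst' (hasSubst_gx k a)]
  rw [finsum_eq_sum_of_support_subset]
  · rfl
  · intro m hm
    rw [Function.mem_support] at hm
    rw [Finset.mem_coe, Finset.mem_range]
    by_contra hlt
    apply hm
    have : cc k a m n = 0 := cc_of_lt hk a (by omega)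
    unfold cc at this
    rw [this, smul_zero]

end Subst12

open Subst12

theorem gbound_subst {H : ℕ} (hH : 2 ≤ H) {f : PowerSeries ℚ} (hf : GBound H f) {k : ℕ}
    (hk : 1 ≤ k) (a : ℕ) : GBound (4 * H * (a + 1)) (f.subst (gx k a)) := by
  intro n
  rw [coeff_subst_gx hk]
  have hH1 : (1 : ℚ) ≤ H := by exact_mod_cast (by omega : 1 ≤ H)
  have ha1 : (1 : ℚ) ≤ (a : ℚ) + 1 := by
    have : (0 : ℚ) ≤ a := Nat.cast_nonneg a
    linarith
  calc |∑ m ∈ Finset.range (n + 1), PowerSeries.coeff m f * cc k a m n|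
      ≤ ∑ m ∈ Finset.range (n + 1), |PowerSeries.coeff m f * cc k a m n| :=
        Finset.abs_sum_le_sum_abs _ _
    _ ≤ ∑ m ∈ Finset.range (n + 1), (H : ℚ) ^ (n + 1) * ((a : ℚ) + 1) ^ n := by
        refine Finset.sum_le_sum fun m hm => ?_
        rw [Finset.mem_range] at hm
        rw [abs_mul]
        refine mul_le_mul ((hf m).trans ?_) (cc_bound hk a n m) (abs_nonneg _) (by positivity)
        exact pow_le_pow_right₀ hH1 (by omega)
    _ = ((n : ℚ) + 1) * ((H : ℚ) ^ (n + 1) * ((a : ℚ) + 1) ^ n) := by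
        rw [Finset.sum_const, Finset.card_range, nsmul_eq_mul]
        push_cast
        ring
    _ ≤ 4 ^ (n + 1) * ((H : ℚ) ^ (n + 1) * ((a : ℚ) + 1) ^ (n + 1)) := by
        have h4 : ((n : ℚ) + 1) ≤ 4 ^ (n + 1) := by
          have : n + 1 < 4 ^ (n + 1) := Nat.lt_pow_self (by norm_num)
          exact_mod_cast this.le
        have h5 : ((a : ℚ) + 1) ^ n ≤ ((a : ℚ) + 1) ^ (n + 1) :=
          pow_le_pow_right₀ ha1 (by omega)
        gcongr
    _ = ((4 * H * (a + 1) : ℕ) : ℚ) ^ (n + 1) := by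
        push_cast
        rw [mul_pow, mul_pow]
        ring

theorem gden_subst {ι : Type} {H : ℕ} (hH : 2 ≤ H) {f : ι → PowerSeries ℚ} (hf : GDen H f)
    {k : ℕ} (hk : 1 ≤ k) (a : ℕ) : GDen (H * k) (fun i => (f i).subst (gx k a)) := by
  intro n
  obtain ⟨d, hd0, hd, hint⟩ := hf n
  refine ⟨d * k ^ n, by positivity, ?_, ?_⟩
  · calc d * k ^ n ≤ H ^ (n + 1) * k ^ (n + 1) :=
          Nat.mul_le_mul hd (Nat.pow_le_pow_right hk (by omega))
      _ = (H * k) ^ (n + 1) := by ring
  · intro m hm i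
    rw [coeff_subst_gx hk]
    have : ∀ j ∈ Finset.range (m + 1), ∃ z : ℤ, ((d * k ^ n : ℕ) : ℚ) *
        (PowerSeries.coeff j (f i) * cc k a j m) = z := by
      intro j hj
      rw [Finset.mem_range] at hj
      obtain ⟨z1, h1⟩ := hint j (by omega) i
      obtain ⟨z2, h2⟩ := cc_int hk a m j
      refine ⟨z1 * (k : ℤ) ^ (n - m) * z2, ?_⟩
      push_cast
      rw [← h1, ← h2]
      have : (k : ℚ) ^ n = (k : ℚ) ^ (n - m) * (k : ℚ) ^ m := by
        rw [← pow_add]
        congr 1
        omega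
      rw [this]
      ring
    choose! z hz using this
    refine ⟨∑ j ∈ Finset.range (m + 1), z j, ?_⟩
    rw [Finset.mul_sum, Int.cast_sum]
    exact Finset.sum_congr rfl hz

/-! ### evaluation -/

namespace Subst12

theorem cc_hasSum {k : ℕ} (hk : 1 ≤ k) (a : ℕ) {x : ℝ} (hx0 : 0 ≤ x)
    (hx : ((a : ℝ) + 1) * x < 1) (m : ℕ) :
    HasSum (fun n => ((cc k a m n : ℚ) : ℝ) * x ^ n) ((x / (k + a * x)) ^ m) := by
  have hk1 : (1 : ℝ) ≤ k := by exact_mod_cast hk
  have ha0 : (0 : ℝ) ≤ a := Nat.cast_nonneg a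
  have hsum : ∀ m, Summable (fun n => ((cc k a m n : ℚ) : ℝ) * x ^ n) := by
    intro m
    refine Summable.of_norm_bounded
      (g := fun n => (((a : ℝ) + 1) * x) ^ n) (summable_geometric_of_lt_one (by positivity) hx) ?_
    intro n
    rw [norm_mul, norm_pow, Real.norm_of_nonneg hx0, mul_pow, Real.norm_eq_abs]
    gcongr
    have := cc_bound hk a n m
    exact_mod_cast this
  induction m with
  | zero =>
    rw [pow_zero]
    have : (fun n => ((cc k a 0 n : ℚ) : ℝ) * x ^ n) = fun n => if n = 0 then (1 : ℝ) else 0 := by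
      funext n
      rw [cc_zero]
      split_ifs with h <;> simp [h]
    rw [this]
    exact hasSum_ite_eq 0 1
  | succ m ih =>
    have hpos : (0 : ℝ) < k + a * x := by positivity
    have h1 := (hsum (m + 1)).hasSum
    set S := ∑' n, ((cc k a (m + 1) n : ℚ) : ℝ) * x ^ n with hS
    -- shift
    have h2 : HasSum (fun n => ((cc k a (m + 1) (n + 1) : ℚ) : ℝ) * x ^ (n + 1)) S := by
      have := (hasSum_nat_add_iff' (f := fun n => ((cc k a (m + 1) n : ℚ) : ℝ) * x ^ n) 1).2 h1
      simpa [cc_succ_zero] using this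
    have h3 : HasSum (fun n => x * (((cc k a m n : ℚ) : ℝ) * x ^ n) -
        (a * x) * (((cc k a (m + 1) n : ℚ) : ℝ) * x ^ n)) (x * (x / (k + a * x)) ^ m -
        (a * x) * S) := (ih.mul_left x).sub (h1.mul_left (a * x))
    have h4 : HasSum (fun n => (k : ℝ) * (((cc k a (m + 1) (n + 1) : ℚ) : ℝ) * x ^ (n + 1)))
        ((k : ℝ) * S) := h2.mul_left _
    have h5 : (fun n => (k : ℝ) * (((cc k a (m + 1) (n + 1) : ℚ) : ℝ) * x ^ (n + 1))) =
        fun n => x * (((cc k a m n : ℚ) : ℝ) * x ^ n) -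
        (a * x) * (((cc k a (m + 1) n : ℚ) : ℝ) * x ^ n) := by
      funext n
      have := cc_rec hk a m n
      have h' : (k : ℝ) * ((cc k a (m + 1) (n + 1) : ℚ) : ℝ) =
          ((cc k a m n : ℚ) : ℝ) - (a : ℝ) * ((cc k a (m + 1) n : ℚ) : ℝ) := by
        exact_mod_cast this
      rw [pow_succ]
      linear_combination (x ^ n * x) * h'
    rw [h5] at h4
    have h6 := h4.unique h3
    have h7 : S = (x / (k + a * x)) ^ (m + 1) := by
      rw [pow_succ]
      have : (k + a * x) * S = x * (x / (k + a * x)) ^ m := by linear_combination h6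
      field_simp at this ⊢
      linear_combination this
    rw [← h7]
    exact h1

end Subst12

theorem pev_subst {H : ℕ} (hH : 2 ≤ H) {f : PowerSeries ℚ} (hf : GBound H f) {k : ℕ}
    (hk : 1 ≤ k) (a : ℕ) {s : ℝ} (hs : (4 * H * (a + 1) : ℝ) ^ 2 < s) :
    pev (f.subst (gx k a)) s = pev f (a + k * s) := by
  have hH1 : (1 : ℝ) ≤ H := by exact_mod_cast (by omega : 1 ≤ H)
  have hk1 : (1 : ℝ) ≤ k := by exact_mod_cast hk
  have ha0 : (0 : ℝ) ≤ a := Nat.cast_nonneg a
  set M : ℝ := 4 * H * (a + 1) with hM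
  have hM4 : 4 ≤ M := by
    rw [hM]
    nlinarith
  have hs0 : 0 < s := lt_of_le_of_lt (by positivity) hs
  set x : ℝ := 1 / s with hx
  have hx0 : 0 < x := by positivity
  set q : ℝ := 1 / M with hq
  have hq0 : 0 < q := by positivity
  have hxq : x ≤ q ^ 2 := by
    rw [hx, hq, one_div_pow]
    exact one_div_le_one_div_of_le (by positivity) hs.le
  have hq1 : q ≤ 1 := by
    rw [hq, div_le_one (by positivity)]
    linarith
  have hHq : (H : ℝ) * q ≤ 1 / 4 := by
    rw [hq, mul_one_div, div_le_div_iff₀ (by positivity) (by norm_num), hM]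
    nlinarith
  have haq : ((a : ℝ) + 1) * q ≤ 1 / 4 := by
    rw [hq, mul_one_div, div_le_div_iff₀ (by positivity) (by norm_num), hM]
    nlinarith
  have hax : ((a : ℝ) + 1) * x < 1 := by
    calc ((a : ℝ) + 1) * x ≤ ((a : ℝ) + 1) * q ^ 2 := by gcongr
      _ = ((a : ℝ) + 1) * q * q := by ring
      _ ≤ 1 / 4 * 1 := by gcongr
      _ < 1 := by norm_num
  have hy : 1 / (a + k * s) = x / (k + a * x) := by
    rw [hx]
    field_simp
    ring
  -- the double series
  let F : ℕ → ℕ → ℝ := fun m n =>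
    ((PowerSeries.coeff m f : ℚ) : ℝ) * ((cc k a m n : ℚ) : ℝ) * x ^ n
  have hF : ∀ m n, ‖F m n‖ ≤ H * ((H * q) ^ m * (((a : ℝ) + 1) * q) ^ n) := by
    intro m n
    by_cases hlt : n < m
    · have : F m n = 0 := by
        simp only [F]
        rw [cc_of_lt hk a hlt]
        simp
      rw [this, norm_zero]
      positivity
    · push Not at hlt
      have h1 : |((PowerSeries.coeff m f : ℚ) : ℝ)| ≤ (H : ℝ) ^ (m + 1) := by
        have := hf m
        exact_mod_cast this
      have h2 : |((cc k a m n : ℚ) : ℝ)| ≤ ((a : ℝ) + 1) ^ n := by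
        have := cc_bound hk a n m
        exact_mod_cast this
      simp only [F]
      rw [norm_mul, norm_mul, norm_pow, Real.norm_of_nonneg hx0.le, Real.norm_eq_abs,
        Real.norm_eq_abs]
      calc |((PowerSeries.coeff m f : ℚ) : ℝ)| * |((cc k a m n : ℚ) : ℝ)| * x ^ n
          ≤ (H : ℝ) ^ (m + 1) * ((a : ℝ) + 1) ^ n * (q ^ 2) ^ n := by gcongr
        _ = (H : ℝ) ^ (m + 1) * ((a : ℝ) + 1) ^ n * (q ^ n * q ^ n) := by ring
        _ ≤ (H : ℝ) ^ (m + 1) * ((a : ℝ) + 1) ^ n * (q ^ m * q ^ n) := by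
            gcongr ?_ * (?_ * _)
            exact pow_le_pow_of_le_one hq0.le hq1 hlt
        _ = H * ((H * q) ^ m * (((a : ℝ) + 1) * q) ^ n) := by
            rw [mul_pow, mul_pow]
            ring
  have hsumF : Summable (Function.uncurry F) := by
    have hg : Summable (fun p : ℕ × ℕ => (H : ℝ) * ((H * q) ^ p.1 * (((a : ℝ) + 1) * q) ^ p.2)) := by
      apply Summable.mul_left
      exact Summable.mul_of_nonneg
        (summable_geometric_of_lt_one (by positivity) (lt_of_le_of_lt hHq (by norm_num)))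
        (summable_geometric_of_lt_one (by positivity) (lt_of_le_of_lt haq (by norm_num)))
        (fun _ => by positivity) (fun _ => by positivity)
    exact Summable.of_norm_bounded hg fun p => hF p.1 p.2
  unfold pev
  rw [← hx, hy]
  have h1 : ∀ n, ((PowerSeries.coeff n (f.subst (gx k a)) : ℚ) : ℝ) * x ^ n = ∑' m, F m n := by
    intro n
    rw [coeff_subst_gx hk, tsum_eq_sum (s := Finset.range (n + 1))]
    · push_cast
      rw [Finset.sum_mul]
    · intro m hm
      rw [Finset.mem_range, not_lt] at hm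
      simp only [F]
      rw [cc_of_lt hk a (by omega)]
      simp
  have h2 : ∀ m, ((PowerSeries.coeff m f : ℚ) : ℝ) * (x / (k + a * x)) ^ m = ∑' n, F m n := by
    intro m
    have := (cc_hasSum hk a hx0.le hax m).mul_left ((PowerSeries.coeff m f : ℚ) : ℝ)
    rw [← this.tsum_eq]
    refine tsum_congr fun n => ?_
    simp only [F]
    ring
  rw [tsum_congr h1, tsum_congr h2]
  exact hsumF.tsum_comm.symm ▸ rfl


/-! ### the differential system -/

namespace Subst12

theorem derivative_ps (f : PowerSeries ℚ) :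
    LaurentSeries.derivative ℚ (ps f) = ps (PowerSeries.derivative ℚ f) := by
  ext n
  rw [LaurentSeries.derivative_apply, LaurentSeries.hasseDeriv_coeff]
  unfold ps
  rw [PowerSeries.coeff_coe, PowerSeries.coeff_coe]
  rcases lt_trichotomy n (-1) with h | h | h
  · rw [if_pos (by push_cast; omega), if_pos (by omega), smul_zero]
  · subst h
    simp
  · obtain ⟨m, rfl⟩ : ∃ m : ℕ, n = m := ⟨n.toNat, by omega⟩
    rw [if_neg (by push_cast; omega), if_neg (by omega)]
    have e1 : ((m : ℤ) + ((1 : ℕ) : ℤ)).natAbs = m + 1 := by omega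
    have e2 : ((m : ℤ)).natAbs = m := by omega
    rw [e1, e2, PowerSeries.coeff_derivative]
    simp
    ring

theorem ps_X : ps PowerSeries.X = HahnSeries.single (1 : ℤ) (1 : ℚ) :=
  PowerSeries.coe_X

theorem dd_ps (f : PowerSeries ℚ) :
    dd (ps f) = -(ps (PowerSeries.X ^ 2 * PowerSeries.derivative ℚ f)) := by
  unfold dd
  rw [derivative_ps]
  have : HahnSeries.single (2 : ℤ) (1 : ℚ) = ps (PowerSeries.X ^ 2) := by
    unfold ps
    rw [PowerSeries.coe_pow, PowerSeries.coe_X, HahnSeries.single_pow]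
    simp
  rw [this]
  unfold ps
  rw [PowerSeries.coe_mul]

theorem ps_injective : Function.Injective ps := HahnSeries.ofPowerSeries_injective

theorem ps_mul (f g : PowerSeries ℚ) : ps (f * g) = ps f * ps g := PowerSeries.coe_mul f g

theorem ps_sum {ι : Type} (s : Finset ι) (f : ι → PowerSeries ℚ) :
    ps (∑ i ∈ s, f i) = ∑ i ∈ s, ps (f i) := map_sum (HahnSeries.ofPowerSeries ℤ ℚ) f s

theorem ps_C (c : ℚ) : ps (PowerSeries.C c) = algebraMap ℚ (LaurentSeries ℚ) c := by
  unfold ps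
  rw [PowerSeries.coe_C]
  exact RingHom.congr_fun (Subsingleton.elim
    (HahnSeries.C : ℚ →+* LaurentSeries ℚ) (algebraMap ℚ (LaurentSeries ℚ))) c

/-- evaluation of a polynomial at a power series, in Laurent series -/
theorem eval₂_ps (q : ℚ[X]) (g : PowerSeries ℚ) :
    eval₂ (algebraMap ℚ (LaurentSeries ℚ)) (ps g) q = ps (eval₂ PowerSeries.C g q) := by
  have h := hom_eval₂ q (PowerSeries.C : ℚ →+* PowerSeries ℚ) (HahnSeries.ofPowerSeries ℤ ℚ) g
  change _ = (HahnSeries.ofPowerSeries ℤ ℚ) (eval₂ PowerSeries.C g q)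
  rw [h]
  congr 1

theorem eval₂_mul_pow {L : Type} [Field L] (i : ℚ →+* L) (x y : L) (hxy : y * x = 1) (N : ℕ)
    (f : ℚ[X]) (hf : f.natDegree ≤ N) : eval₂ i y (reflect N f) * x ^ N = eval₂ i x f := by
  let _ : Invertible x := ⟨y, hxy, by rw [mul_comm]; exact hxy⟩
  exact eval₂_reflect_mul_pow i x N f hf

end Subst12

theorem isSol_subst {ι : Type} [Fintype ι] {T : ℚ[X]} {B : Matrix ι ι ℚ[X]}
    {e : ι → PowerSeries ℚ} (he : IsSol T B (fun i => ps (e i))) {k : ℕ} (hk : 1 ≤ k) (a : ℕ) :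
    IsSol (T.comp (C (a : ℚ) + C (k : ℚ) * X))
      ((C (k : ℚ) : ℚ[X]) • B.map (fun p => p.comp (C (a : ℚ) + C (k : ℚ) * X)))
      (fun i => ps ((e i).subst (gx k a))) := by
  classical
  intro α
  -- common degree bound
  let N : ℕ := T.natDegree + ∑ p : ι × ι, (B p.1 p.2).natDegree
  have hTN : T.natDegree ≤ N := Nat.le_add_right _ _
  have hBN : ∀ b, (B α b).natDegree ≤ N := fun b => by
    have : (B α b).natDegree ≤ ∑ p : ι × ι, (B p.1 p.2).natDegree :=
      Finset.single_le_sum (f := fun p : ι × ι => (B p.1 p.2).natDegree)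
        (fun _ _ => Nat.zero_le _) (Finset.mem_univ (α, b))
    exact this.trans (Nat.le_add_left _ _)
  set g := gx k a with hg
  have hgs : PowerSeries.HasSubst g := hasSubst_gx k a
  let i : ℚ →+* LaurentSeries ℚ := algebraMap ℚ (LaurentSeries ℚ)
  -- `x = 1/s`
  let ξ : LaurentSeries ℚ := HahnSeries.single (-1 : ℤ) (1 : ℚ)
  have hξ : ps PowerSeries.X * ξ = 1 := by
    rw [ps_X]
    simp [ξ]
  have hξ0 : ξ ≠ 0 := right_ne_zero_of_mul_eq_one hξ
  let τ : LaurentSeries ℚ := emb (C (a : ℚ) + C (k : ℚ) * X)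
  have hτ : ps g * τ = 1 := by
    have h1 : τ = (ps (PowerSeries.C (k : ℚ) + PowerSeries.C (a : ℚ) * PowerSeries.X)) * ξ := by
      have e1 : ps (PowerSeries.C (k : ℚ) + PowerSeries.C (a : ℚ) * PowerSeries.X) =
          i (k : ℚ) + i (a : ℚ) * ps PowerSeries.X := by
        have : ps (PowerSeries.C (k : ℚ) + PowerSeries.C (a : ℚ) * PowerSeries.X) =
            ps (PowerSeries.C (k : ℚ)) + ps (PowerSeries.C (a : ℚ) * PowerSeries.X) :=
          PowerSeries.coe_add _ _
        rw [this, ps_mul, ps_C, ps_C]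
      rw [e1, add_mul, mul_assoc, hξ, mul_one]
      simp only [τ, emb, coe_eval₂RingHom, eval₂_add, eval₂_mul, eval₂_C, eval₂_X]
      rw [add_comm]
    rw [h1, ← mul_assoc, ← ps_mul, gx_mul hk, hξ]
  have hτ0 : τ ≠ 0 := right_ne_zero_of_mul_eq_one hτ
  have hemb : ∀ p : ℚ[X], p.natDegree ≤ N →
      emb p = ps (eval₂ PowerSeries.C PowerSeries.X (reflect N p)) * ξ ^ N := by
    intro p hp
    have := eval₂_mul_pow i ξ (ps PowerSeries.X) hξ N p hp
    rw [eval₂_ps] at this
    exact this.symm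
  have hembc : ∀ p : ℚ[X], p.natDegree ≤ N →
      emb (p.comp (C (a : ℚ) + C (k : ℚ) * X)) =
        ps (eval₂ PowerSeries.C g (reflect N p)) * τ ^ N := by
    intro p hp
    have h1 : emb (p.comp (C (a : ℚ) + C (k : ℚ) * X)) = eval₂ i τ p := by
      rw [comp, hom_eval₂]
      congr 1
      ext c
      simp [emb, i]
    have := eval₂_mul_pow i τ (ps g) hτ N p hp
    rw [eval₂_ps] at this
    rw [h1]
    exact this.symm
  have hsubst : ∀ p : ℚ[X], (eval₂ PowerSeries.C PowerSeries.X p : PowerSeries ℚ).subst g =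
      eval₂ PowerSeries.C g p := by
    intro p
    rw [← PowerSeries.coe_substAlgHom hgs]
    have h := hom_eval₂ p (PowerSeries.C : ℚ →+* PowerSeries ℚ)
      (PowerSeries.substAlgHom hgs : PowerSeries ℚ →ₐ[ℚ] PowerSeries ℚ).toRingHom PowerSeries.X
    have h2 : ((PowerSeries.substAlgHom hgs : PowerSeries ℚ →ₐ[ℚ] PowerSeries ℚ).toRingHom).comp
        (PowerSeries.C : ℚ →+* PowerSeries ℚ) = PowerSeries.C := by
      ext1 c
      exact (PowerSeries.substAlgHom hgs : PowerSeries ℚ →ₐ[ℚ] PowerSeries ℚ).commutes c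
    have h3 : (PowerSeries.substAlgHom hgs : PowerSeries ℚ →ₐ[ℚ] PowerSeries ℚ).toRingHom
        PowerSeries.X = g := PowerSeries.substAlgHom_X hgs
    rw [h2, h3] at h
    exact h
  -- the identity of power series
  have h1 := he α
  beta_reduce at h1
  rw [hemb T hTN, dd_ps, Finset.sum_congr rfl fun b _ => by rw [hemb (B α b) (hBN b)]] at h1
  have h2 : ps (eval₂ PowerSeries.C PowerSeries.X (reflect N T) *
      -(PowerSeries.X ^ 2 * PowerSeries.derivative ℚ (e α))) =
      ps (∑ b, eval₂ PowerSeries.C PowerSeries.X (reflect N (B α b)) * e b) := by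
    have hneg : ∀ f : PowerSeries ℚ, ps (-f) = -ps f := fun f => PowerSeries.coe_neg f
    rw [ps_mul, ps_sum, hneg]
    apply mul_right_cancel₀ (pow_ne_zero N hξ0)
    rw [Finset.sum_mul]
    calc _ = ps (eval₂ PowerSeries.C PowerSeries.X (reflect N T)) * ξ ^ N *
          -ps (PowerSeries.X ^ 2 * PowerSeries.derivative ℚ (e α)) := by ring
      _ = _ := h1
      _ = _ := by
          refine Finset.sum_congr rfl fun b _ => ?_
          rw [ps_mul]
          ring
  have h3 := ps_injective h2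
  have h4 := congrArg (fun f : PowerSeries ℚ => f.subst g) h3
  beta_reduce at h4
  have hsum : ∀ (f : ι → PowerSeries ℚ), (∑ b, f b).subst g = ∑ b, (f b).subst g := by
    intro f
    simp only [← PowerSeries.coe_substAlgHom hgs]
    exact map_sum (PowerSeries.substAlgHom hgs : PowerSeries ℚ →ₐ[ℚ] PowerSeries ℚ) f _
  have hnegs : ∀ (f : PowerSeries ℚ), (-f).subst g = -(f.subst g) := by
    intro f
    simp only [← PowerSeries.coe_substAlgHom hgs]
    exact map_neg (PowerSeries.substAlgHom hgs : PowerSeries ℚ →ₐ[ℚ] PowerSeries ℚ) f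
  rw [PowerSeries.subst_mul hgs, hnegs, PowerSeries.subst_mul hgs, PowerSeries.subst_pow hgs,
    PowerSeries.subst_X hgs, hsubst, hsum,
    Finset.sum_congr rfl fun b _ => by rw [PowerSeries.subst_mul hgs, hsubst]] at h4
  -- derivative of `gx`
  have hgd : PowerSeries.X ^ 2 * PowerSeries.derivative ℚ g = PowerSeries.C (k : ℚ) * g ^ 2 := by
    have e1 := gx_mul hk a
    rw [← hg] at e1
    have e2 := congrArg (PowerSeries.derivative ℚ) e1
    have hC : ∀ c : ℚ, PowerSeries.derivative ℚ (PowerSeries.C c) = 0 := fun c => by simp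
    have hX : PowerSeries.derivative ℚ (PowerSeries.X : PowerSeries ℚ) = 1 := by simp
    rw [Derivation.leibniz, map_add, Derivation.leibniz, hC, hC, hX] at e2
    simp only [smul_eq_mul, mul_one, mul_zero, add_zero, zero_add] at e2
    have hne : (PowerSeries.C (k : ℚ) + PowerSeries.C (a : ℚ) * (PowerSeries.X : PowerSeries ℚ)) ≠ 0 := by
      intro h0
      rw [h0, mul_zero] at e1
      exact PowerSeries.X_ne_zero e1.symm
    apply mul_left_cancel₀ hne
    linear_combination (PowerSeries.X ^ 2) * e2 - (PowerSeries.X + PowerSeries.C (k : ℚ) * g) * e1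
  -- assemble
  have h5 : eval₂ PowerSeries.C g (reflect N T) *
      -(PowerSeries.X ^ 2 * PowerSeries.derivative ℚ ((e α).subst g)) =
      ∑ b, PowerSeries.C (k : ℚ) * (eval₂ PowerSeries.C g (reflect N (B α b)) * (e b).subst g) := by
    rw [PowerSeries.derivative_subst hgs, ← Finset.mul_sum, ← h4]
    linear_combination (-(eval₂ PowerSeries.C g (reflect N T) *
      (PowerSeries.derivative ℚ (e α)).subst g)) * hgd
  beta_reduce
  rw [hembc T hTN, dd_ps]
  have h6 : ∀ b, emb (((C (k : ℚ) : ℚ[X]) • B.map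
      (fun p => p.comp (C (a : ℚ) + C (k : ℚ) * X))) α b) =
      ps (PowerSeries.C (k : ℚ)) * (ps (eval₂ PowerSeries.C g (reflect N (B α b))) * τ ^ N) := by
    intro b
    rw [Matrix.smul_apply, Matrix.map_apply, smul_eq_mul, map_mul, hembc _ (hBN b), ps_C]
    congr 1
    simp [emb]
  rw [Finset.sum_congr rfl fun b _ => by rw [h6 b]]
  have h7 := congrArg ps h5
  have hneg : ∀ f : PowerSeries ℚ, ps (-f) = -ps f := fun f => PowerSeries.coe_neg f
  rw [ps_mul, ps_sum, hneg] at h7
  calc _ = ps (eval₂ PowerSeries.C g (reflect N T)) *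
      -ps (PowerSeries.X ^ 2 * PowerSeries.derivative ℚ ((e α).subst g)) * τ ^ N := by ring
    _ = _ := by
      rw [h7, Finset.sum_mul]
      refine Finset.sum_congr rfl fun b _ => ?_
      rw [ps_mul, ps_mul]
      ring

end Pool.Agent.Helper37.GP
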